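import Pool.Agent.Q286.PG.Stm

/-!
# Project PRG: the autocorrelation in terms of the transform, complex version
-/

set_option autoImplicit false

open MeasureTheory Complex Filter Topology

namespace Pool.Agent.Q214.PG

open Pool.Agent Pool.Agent.Y23

theorem parC : Pool.Agent.Q286.PG.S_ParC := by
  intro a t f _ hf
  have h1 := four_one hf t
  have e0 : (2 * (Real.pi : ℂ) * ∫ x : ℝ, f (x + t) * (starRingEnd ℂ) (f x)) = 2 * (Real.pi : ℂ) * CC f t := rfl
  rw [e0, ← h1]
  refine integral_congr_ae (Eventually.of_forall fun y => ?_)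
  have e : -((y * I) * t) = -(t * y * I) := by ring
  show cexp (-((y * I) * t)) * (gsq f y : ℂ) = _
  rw [e, mul_comm]
  rfl

end Pool.Agent.Q214.PG
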