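import Pool.Agent.Q286.PG.Stm

/-!
# Project PRG: a sum `κ + Re ∑ x_n n^(-iv)` with `κ ≥ 0` is positive somewhere
-/

set_option autoImplicit false
set_option maxHeartbeats 2000000

open MeasureTheory Filter Topology

namespace Pool.Agent.Q214.PG

open Pool.Agent.Q240.PR (S_Ker)
open Pool.Agent.Q286.PG

/-- an even kernel with a spectral gap -/
theorem even_ker (hk : S_Ker) {δ : ℝ} (hδ : 0 < δ) : ∃ K : ℝ → ℝ, Continuous K ∧ (∀ v, 0 ≤ K v) ∧ (∀ᵐ v : ℝ, 0 < K v) ∧
    Integrable K ∧ 0 < ∫ v, K v ∧ ∀ s : ℝ, δ ≤ |s| → ∫ v : ℝ, (K v : ℂ) * Complex.exp (s * v * Complex.I) = 0 := by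
  obtain ⟨K, hKc, hK0, -, hKae, hKi, hKcos, -⟩ := hk δ hδ
  have hI : Integrable K := by
    refine hKi.mono' hKc.aestronglyMeasurable (Eventually.of_forall fun v => ?_)
    rw [Real.norm_eq_abs, abs_of_nonneg (hK0 v)]
    nlinarith [hK0 v, sq_nonneg v, mul_nonneg (sq_nonneg v) (hK0 v)]
  have hIn : Integrable fun v => K (-v) := hI.comp_neg
  have hpos : 0 < ∫ v : ℝ, K v := by
    rw [integral_pos_iff_support_of_nonneg hK0 hI]
    have h1 : volume ((Function.support K)ᶜ) = 0 := by
      refine measure_mono_null ?_ (ae_iff.1 hKae)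
      intro v hv
      rw [Set.mem_compl_iff, Function.mem_support, not_not] at hv
      change ¬ 0 < K v
      rw [hv]
      exact lt_irrefl 0
    by_contra h2
    have h3 : volume (Function.support K) = 0 := by simpa using h2
    have h4 : volume (Set.univ : Set ℝ) = 0 := by
      rw [← Set.union_compl_self (Function.support K)]
      exact measure_union_null h3 h1
    simp at h4
  refine ⟨fun v => K v + K (-v), hKc.add (hKc.comp continuous_neg), fun v => add_nonneg (hK0 v) (hK0 _), ?_, hI.add hIn, ?_, fun s hs => ?_⟩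
  · filter_upwards [hKae] with v hv
    exact add_pos_of_pos_of_nonneg hv (hK0 _)
  · rw [integral_add hI hIn, integral_neg_eq_self (fun v => K v) volume]
    linarith
  · have hn : ∀ v : ℝ, ‖Complex.exp (s * v * Complex.I)‖ = 1 := by
      intro v
      have e : (s : ℂ) * v * Complex.I = ((s * v : ℝ) : ℂ) * Complex.I := by push_cast; ring
      rw [e, Complex.norm_exp_ofReal_mul_I]
    have i1 : Integrable fun v : ℝ => (K v : ℂ) * Complex.exp (s * v * Complex.I) := by
      refine hI.mono' (Continuous.aestronglyMeasurable (by fun_prop)) (Eventually.of_forall fun v => ?_)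
      rw [norm_mul, hn, mul_one, Complex.norm_real, Real.norm_of_nonneg (hK0 v)]
    have i2 : Integrable fun v : ℝ => (K v : ℂ) * Complex.exp (-(s * v * Complex.I)) := by
      refine hI.mono' (Continuous.aestronglyMeasurable (by fun_prop)) (Eventually.of_forall fun v => ?_)
      have e : -((s : ℂ) * v * Complex.I) = ((-(s * v) : ℝ) : ℂ) * Complex.I := by push_cast; ring
      rw [norm_mul, e, Complex.norm_exp_ofReal_mul_I, mul_one, Complex.norm_real, Real.norm_of_nonneg (hK0 v)]
    have e1 : ∫ v : ℝ, (K (-v) : ℂ) * Complex.exp (s * v * Complex.I) = ∫ v : ℝ, (K v : ℂ) * Complex.exp (-(s * v * Complex.I)) := by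
      rw [← integral_neg_eq_self (fun v : ℝ => (K (-v) : ℂ) * Complex.exp (s * v * Complex.I)) volume]
      refine integral_congr_ae (Eventually.of_forall fun v => ?_)
      simp only [neg_neg]
      congr 2
      push_cast
      ring
    have i3 : Integrable fun v : ℝ => (K (-v) : ℂ) * Complex.exp (s * v * Complex.I) := by
      have := i2.comp_neg
      refine this.congr (Eventually.of_forall fun v => ?_)
      simp only
      congr 2
      push_cast
      ring
    have e2 : ∫ v : ℝ, ((K v + K (-v) : ℝ) : ℂ) * Complex.exp (s * v * Complex.I) =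
        ∫ v : ℝ, ((2 * (K v * Real.cos (s * v)) : ℝ) : ℂ) := by
      have e3 : ∫ v : ℝ, ((K v + K (-v) : ℝ) : ℂ) * Complex.exp (s * v * Complex.I) =
          ∫ v : ℝ, ((K v : ℂ) * Complex.exp (s * v * Complex.I) + (K (-v) : ℂ) * Complex.exp (s * v * Complex.I)) := by
        refine integral_congr_ae (Eventually.of_forall fun v => ?_)
        simp only
        push_cast
        ring
      rw [e3, integral_add i1 i3, e1, ← integral_add i1 i2]
      refine integral_congr_ae (Eventually.of_forall fun v => ?_)
      simp only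
      push_cast
      rw [Complex.cos, show -(s * v * Complex.I : ℂ) = -(s * v) * Complex.I by ring]
      ring
    rw [e2, integral_complex_ofReal, integral_const_mul, hKcos s hs, mul_zero, Complex.ofReal_zero]

/-- the character `n^(-iv)` -/
noncomputable def en (n : ℕ) (v : ℝ) : ℂ := Complex.exp (-(Real.log n * v * Complex.I))

theorem en_norm (n : ℕ) (v : ℝ) : ‖en n v‖ = 1 := by
  unfold en
  have e : -((Real.log n : ℂ) * v * Complex.I) = ((-(Real.log n * v) : ℝ) : ℂ) * Complex.I := by push_cast; ring
  rw [e, Complex.norm_exp_ofReal_mul_I]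

theorem en_cont (n : ℕ) : Continuous (en n) := by
  unfold en
  fun_prop

/-- the sum -/
noncomputable def SS (x : ℕ → ℂ) (v : ℝ) : ℂ := ∑' n : ℕ, x n * en n v

theorem SS_cont {x : ℕ → ℂ} (hx : Summable fun n => ‖x n‖) : Continuous (SS x) := by
  unfold SS
  refine continuous_tsum (fun n => continuous_const.mul (en_cont n)) hx fun n v => ?_
  rw [norm_mul, en_norm, mul_one]

theorem SS_norm {x : ℕ → ℂ} (hx : Summable fun n => ‖x n‖) (v : ℝ) : ‖SS x v‖ ≤ ∑' n, ‖x n‖ := by
  unfold SS
  refine (norm_tsum_le_tsum_norm ?_).trans (le_of_eq ?_)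
  · refine hx.congr fun n => ?_
    rw [norm_mul, en_norm, mul_one]
  · refine tsum_congr fun n => ?_
    rw [norm_mul, en_norm, mul_one]

/-- the sum and the integral may be exchanged -/
theorem exch {x : ℕ → ℂ} (hx : Summable fun n => ‖x n‖) {g : ℝ → ℂ} (hg : Integrable g) :
    ∫ v, g v * SS x v = ∑' n, x n * ∫ v, g v * en n v := by
  have h1 : ∀ n, Integrable fun v => g v * (x n * en n v) := by
    intro n
    refine (hg.norm.mul_const ‖x n‖).mono' (hg.aestronglyMeasurable.mul (continuous_const.mul (en_cont n)).aestronglyMeasurable)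
      (Eventually.of_forall fun v => ?_)
    rw [norm_mul, norm_mul, en_norm, mul_one]
  have h2 : Summable fun n => ∫ v, ‖g v * (x n * en n v)‖ := by
    have e1 : (fun n => ∫ v, ‖g v * (x n * en n v)‖) = fun n => (∫ v, ‖g v‖) * ‖x n‖ := by
      funext n
      rw [← integral_mul_const]
      refine integral_congr_ae (Eventually.of_forall fun v => ?_)
      show ‖g v * (x n * en n v)‖ = ‖g v‖ * ‖x n‖
      rw [norm_mul, norm_mul, en_norm, mul_one]
    rw [e1]
    exact hx.mul_left _
  have h3 := integral_tsum_of_summable_integral_norm h1 h2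
  have e2 : ∀ v, ∑' n, g v * (x n * en n v) = g v * SS x v := by
    intro v
    unfold SS
    rw [tsum_mul_left]
  simp only [e2] at h3
  rw [← h3]
  refine tsum_congr fun n => ?_
  rw [← integral_const_mul]
  refine integral_congr_ae (Eventually.of_forall fun v => ?_)
  show g v * (x n * en n v) = x n * (g v * en n v)
  ring

theorem Tm_eq (x : ℕ → ℂ) (κ v : ℝ) : Tm x κ v = κ + (SS x v).re := rfl

theorem log_gap {n : ℕ} (hn : n ≠ 0) (hn1 : n ≠ 1) : Real.log 2 ≤ Real.log n := by
  have h2 : 2 ≤ n := by omega
  exact Real.log_le_log (by norm_num) (by exact_mod_cast h2)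

/-- **S_PosI** -/
theorem posI (hk : S_Ker) : S_PosI := by
  intro x κ hκ hx0 hx1 hx hne
  by_contra hcon
  push Not at hcon
  have hl2 : 0 < Real.log 2 := Real.log_pos (by norm_num)
  have hSc := SS_cont hx
  obtain ⟨K, hKc, hK0, hKae, hKi, hKpos, hKF⟩ := even_ker hk hl2
  have hKC : Integrable fun v => (K v : ℂ) := hKi.ofReal
  have iKS : Integrable fun v => (K v : ℂ) * SS x v := by
    refine (hKi.mul_const (∑' n, ‖x n‖)).mono' (hKC.aestronglyMeasurable.mul hSc.aestronglyMeasurable) (Eventually.of_forall fun v => ?_)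
    rw [norm_mul, Complex.norm_real, Real.norm_of_nonneg (hK0 v)]
    exact mul_le_mul_of_nonneg_left (SS_norm hx v) (hK0 v)
  have iRe : Integrable fun v => ((K v : ℂ) * SS x v).re := iKS.re
  -- the integral against the kernel
  have h1 : ∫ v, (K v : ℂ) * SS x v = 0 := by
    rw [exch hx hKC]
    have : ∀ n, x n * ∫ v, (K v : ℂ) * en n v = 0 := by
      intro n
      by_cases hn : n = 0
      · rw [hn, hx0, zero_mul]
      by_cases hn1 : n = 1
      · rw [hn1, hx1, zero_mul]
      have h2 := hKF (-Real.log n) (by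
        rw [abs_neg, abs_of_nonneg (hl2.le.trans (log_gap hn hn1))]
        exact log_gap hn hn1)
      have e1 : ∫ v, (K v : ℂ) * en n v = ∫ v : ℝ, (K v : ℂ) * Complex.exp (((-Real.log n : ℝ) : ℂ) * v * Complex.I) := by
        refine integral_congr_ae (Eventually.of_forall fun v => ?_)
        show (K v : ℂ) * en n v = _
        unfold en
        congr 2
        push_cast
        ring
      rw [e1, h2, mul_zero]
    simp only [this, tsum_zero]
  have iKT : Integrable fun v => K v * Tm x κ v := by
    have : (fun v => K v * Tm x κ v) = fun v => K v * κ + ((K v : ℂ) * SS x v).re := by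
      funext v
      rw [Tm_eq, Complex.re_ofReal_mul]
      ring
    rw [this]
    exact (hKi.mul_const κ).add iRe
  have h2 : ∫ v, K v * Tm x κ v = (∫ v, K v) * κ := by
    have : (fun v => K v * Tm x κ v) = fun v => K v * κ + ((K v : ℂ) * SS x v).re := by
      funext v
      rw [Tm_eq, Complex.re_ofReal_mul]
      ring
    rw [this, integral_add (hKi.mul_const κ) iRe, integral_mul_const]
    have h3 : ∫ v, ((K v : ℂ) * SS x v).re = (∫ v, (K v : ℂ) * SS x v).re := integral_re iKS
    rw [h3, h1]
    simp
  have h3 : ∫ v, K v * Tm x κ v ≤ 0 := by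
    refine integral_nonpos fun v => ?_
    exact mul_nonpos_of_nonneg_of_nonpos (hK0 v) (hcon v)
  have hκ0 : κ = 0 := by
    rw [h2] at h3
    by_contra hc
    have : 0 < κ := lt_of_le_of_ne hκ (Ne.symm hc)
    have := mul_pos hKpos this
    linarith
  have h4 : ∫ v, K v * Tm x κ v = 0 := by rw [h2, hκ0, mul_zero]
  have h5 : (fun v => -(K v * Tm x κ v)) =ᵐ[volume] 0 := by
    rw [← integral_eq_zero_iff_of_nonneg]
    · rw [integral_neg, h4, neg_zero]
    · intro v
      have : K v * Tm x κ v ≤ 0 := mul_nonpos_of_nonneg_of_nonpos (hK0 v) (hcon v)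
      change 0 ≤ -(K v * Tm x κ v)
      linarith
    · exact iKT.neg
  have hTae : (fun v => Tm x κ v) =ᵐ[volume] fun _ => (0 : ℝ) := by
    filter_upwards [h5, hKae] with v h6 h7
    have h8 : K v * Tm x κ v = 0 := by
      have : -(K v * Tm x κ v) = 0 := h6
      linarith
    rcases mul_eq_zero.1 h8 with h9 | h9
    · exact absurd h9 h7.ne'
    · exact h9
  have hTc : Continuous fun v => Tm x κ v := by
    have : (fun v => Tm x κ v) = fun v => κ + (SS x v).re := rfl
    rw [this]
    exact continuous_const.add (Complex.continuous_re.comp hSc)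
  have hT0 : ∀ v, (SS x v).re = 0 := by
    intro v
    have h6 : Tm x κ v = 0 := congrFun ((hTc.ae_eq_iff_eq volume continuous_const).1 hTae) v
    rw [Tm_eq, hκ0, zero_add] at h6
    exact h6
  -- a coefficient
  obtain ⟨m, hm⟩ : ∃ n, x n ≠ 0 := by
    rcases hne with h | h
    · exact absurd hκ0 h.ne'
    · exact h
  have hm0 : m ≠ 0 := fun h => hm (by rw [h]; exact hx0)
  have hm1 : m ≠ 1 := fun h => hm (by rw [h]; exact hx1)
  have hmR : (0 : ℝ) < m := by exact_mod_cast Nat.pos_of_ne_zero hm0
  set δ := min (Real.log 2) (Real.log ((m + 1 : ℝ) / m)) with hδ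
  have hδ0 : 0 < δ := lt_min hl2 (Real.log_pos (by rw [one_lt_div hmR]; linarith))
  have hδ2 : δ ≤ Real.log 2 := min_le_left _ _
  have hgap : ∀ n : ℕ, n ≠ 0 → n ≠ m → δ ≤ |Real.log m - Real.log n| := by
    intro n hn hnm
    have hnR : (0 : ℝ) < n := by exact_mod_cast Nat.pos_of_ne_zero hn
    refine (min_le_right _ _).trans ?_
    rcases lt_or_gt_of_ne hnm with hlt | hgt
    · -- n < m
      have h6 : (n : ℝ) + 1 ≤ m := by exact_mod_cast hlt
      have h7 : Real.log ((m + 1 : ℝ) / m) ≤ Real.log (m / n) := by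
        refine Real.log_le_log (by positivity) ?_
        rw [div_le_div_iff₀ hmR hnR]
        nlinarith
      rw [Real.log_div hmR.ne' hnR.ne'] at h7
      exact h7.trans (le_abs_self _)
    · have h6 : (m : ℝ) + 1 ≤ n := by exact_mod_cast hgt
      have h7 : Real.log ((m + 1 : ℝ) / m) ≤ Real.log (n / m) := by
        refine Real.log_le_log (by positivity) ?_
        rw [div_le_div_iff₀ hmR hmR]
        nlinarith
      rw [Real.log_div hnR.ne' hmR.ne'] at h7
      have := neg_le_abs (Real.log m - Real.log n)
      linarith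
  obtain ⟨K', hKc', hK0', hKae', hKi', hKpos', hKF'⟩ := even_ker hk hδ0
  set g : ℝ → ℂ := fun v => (K' v : ℂ) * Complex.exp (Real.log m * v * Complex.I) with hg
  have hgn : ∀ v : ℝ, ‖Complex.exp (Real.log m * v * Complex.I)‖ = 1 := by
    intro v
    have e : (Real.log m : ℂ) * v * Complex.I = ((Real.log m * v : ℝ) : ℂ) * Complex.I := by push_cast; ring
    rw [e, Complex.norm_exp_ofReal_mul_I]
  have hgi : Integrable g := by
    refine hKi'.mono' (Continuous.aestronglyMeasurable (by fun_prop)) (Eventually.of_forall fun v => ?_)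
    rw [hg]
    show ‖(K' v : ℂ) * Complex.exp (Real.log m * v * Complex.I)‖ ≤ _
    rw [norm_mul, hgn, mul_one, Complex.norm_real, Real.norm_of_nonneg (hK0' v)]
  set g' : ℝ → ℂ := fun v => (K' v : ℂ) * Complex.exp (-(Real.log m * v * Complex.I)) with hg'
  have hgn' : ∀ v : ℝ, ‖Complex.exp (-(Real.log m * v * Complex.I))‖ = 1 := fun v => en_norm m v
  have hgi' : Integrable g' := by
    refine hKi'.mono' (Continuous.aestronglyMeasurable (by fun_prop)) (Eventually.of_forall fun v => ?_)
    rw [hg']
    show ‖(K' v : ℂ) * Complex.exp (-(Real.log m * v * Complex.I))‖ ≤ _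
    rw [norm_mul, hgn', mul_one, Complex.norm_real, Real.norm_of_nonneg (hK0' v)]
  -- the first integral
  have h6 : ∫ v, g v * SS x v = x m * ((∫ v, K' v : ℝ) : ℂ) := by
    rw [exch hx hgi, tsum_eq_single m]
    · congr 1
      rw [← integral_complex_ofReal]
      refine integral_congr_ae (Eventually.of_forall fun v => ?_)
      show (K' v : ℂ) * Complex.exp (Real.log m * v * Complex.I) * en m v = _
      unfold en
      rw [mul_assoc, ← Complex.exp_add, add_neg_cancel, Complex.exp_zero, mul_one]
    · intro n hn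
      by_cases hn0 : n = 0
      · rw [hn0, hx0, zero_mul]
      have h7 := hKF' (Real.log m - Real.log n) (hgap n hn0 hn)
      have e1 : ∫ v, g v * en n v = ∫ v : ℝ, (K' v : ℂ) * Complex.exp (((Real.log m - Real.log n : ℝ) : ℂ) * v * Complex.I) := by
        refine integral_congr_ae (Eventually.of_forall fun v => ?_)
        show (K' v : ℂ) * Complex.exp (Real.log m * v * Complex.I) * en n v = _
        unfold en
        rw [mul_assoc, ← Complex.exp_add]
        congr 2
        push_cast
        ring
      rw [e1, h7, mul_zero]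
  -- the second integral
  have h7 : ∫ v, g' v * SS x v = 0 := by
    rw [exch hx hgi']
    have : ∀ n, x n * ∫ v, g' v * en n v = 0 := by
      intro n
      by_cases hn : n = 0
      · rw [hn, hx0, zero_mul]
      by_cases hn1 : n = 1
      · rw [hn1, hx1, zero_mul]
      have h8 := hKF' (-(Real.log m + Real.log n)) (by
        rw [abs_neg, abs_of_nonneg (add_nonneg (hl2.le.trans (log_gap hm0 hm1)) (hl2.le.trans (log_gap hn hn1)))]
        have := log_gap hn hn1
        have := log_gap hm0 hm1
        linarith)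
      have e1 : ∫ v, g' v * en n v = ∫ v : ℝ, (K' v : ℂ) * Complex.exp (((-(Real.log m + Real.log n) : ℝ) : ℂ) * v * Complex.I) := by
        refine integral_congr_ae (Eventually.of_forall fun v => ?_)
        show (K' v : ℂ) * Complex.exp (-(Real.log m * v * Complex.I)) * en n v = _
        unfold en
        rw [mul_assoc, ← Complex.exp_add]
        congr 2
        push_cast
        ring
      rw [e1, h8, mul_zero]
    simp only [this, tsum_zero]
  -- comparison
  have h8 : ∀ v, SS x v = -(starRingEnd ℂ) (SS x v) := by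
    intro v
    apply Complex.ext
    · rw [Complex.neg_re, Complex.conj_re, hT0 v, neg_zero]
    · rw [Complex.neg_im, Complex.conj_im, neg_neg]
  have h9 : ∫ v, g v * SS x v = -(starRingEnd ℂ) (∫ v, g' v * SS x v) := by
    rw [← integral_conj, ← integral_neg]
    refine integral_congr_ae (Eventually.of_forall fun v => ?_)
    show g v * SS x v = -(starRingEnd ℂ) (g' v * SS x v)
    rw [h8 v, map_mul, map_neg, Complex.conj_conj]
    have e2 : (starRingEnd ℂ) (g' v) = g v := by
      rw [hg, hg']
      simp only [map_mul, Complex.conj_ofReal, ← Complex.exp_conj, map_neg, Complex.conj_I]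
      congr 2
      ring
    rw [e2, ← h8 v]
    ring
  rw [h7, map_zero, neg_zero, h6] at h9
  rcases mul_eq_zero.1 h9 with h10 | h10
  · exact hm h10
  · rw [Complex.ofReal_eq_zero] at h10
    exact hKpos'.ne' h10

end Pool.Agent.Q214.PG
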