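import Pool.Agent.Q286.PG.Stm2

set_option autoImplicit false
set_option maxHeartbeats 1000000

/-!
# Project PRG: power sums
-/

namespace Pool.Agent.Q214.PG

open Finset Polynomial

/-- the shift of sequences -/
noncomputable def Sh : Module.End ℂ (ℕ → ℂ) where
  toFun := fun u k => u (k + 1)
  map_add' := fun _ _ => rfl
  map_smul' := fun _ _ => rfl

theorem Sh_apply (u : ℕ → ℂ) (k : ℕ) : Sh u k = u (k + 1) := rfl

theorem Sh_pow (i : ℕ) (u : ℕ → ℂ) (k : ℕ) : (Sh ^ i) u k = u (k + i) := by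
  induction i generalizing u with
  | zero => rfl
  | succ i ih => rw [pow_succ, Module.End.mul_apply, ih, Sh_apply, add_assoc]

theorem basic {ρ K K' : ℝ} (hρ : 0 < ρ) (hK' : 0 ≤ K') {n : ℕ} {γ : ℂ} (hγ : ‖γ‖ ≤ ρ) {u : ℕ → ℂ}
    (h0 : ‖u 0‖ ≤ K) (hu : ∀ k : ℕ, ‖u (k + 1) - γ * u k‖ ≤ K' * ((k : ℝ) + 1) ^ n * ρ ^ k) (k : ℕ) :
    ‖u k‖ ≤ (K + K' / ρ * k * ((k : ℝ) + 1) ^ n) * ρ ^ k := by
  induction k with
  | zero => simpa using h0
  | succ k ih =>
    have h1 : ‖u (k + 1)‖ ≤ ρ * ‖u k‖ + K' * ((k : ℝ) + 1) ^ n * ρ ^ k := by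
      calc ‖u (k + 1)‖ = ‖γ * u k + (u (k + 1) - γ * u k)‖ := by rw [add_sub_cancel]
        _ ≤ ‖γ * u k‖ + ‖u (k + 1) - γ * u k‖ := norm_add_le _ _
        _ ≤ _ := by
            refine add_le_add ?_ (hu k)
            rw [norm_mul]
            exact mul_le_mul_of_nonneg_right hγ (norm_nonneg _)
    have h2 : ((k : ℝ) + 1) ^ n ≤ ((k : ℝ) + 1 + 1) ^ n := pow_le_pow_left₀ (by positivity) (by linarith) n
    calc ‖u (k + 1)‖ ≤ ρ * ‖u k‖ + K' * ((k : ℝ) + 1) ^ n * ρ ^ k := h1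
      _ ≤ ρ * ((K + K' / ρ * k * ((k : ℝ) + 1) ^ n) * ρ ^ k) + K' * ((k : ℝ) + 1) ^ n * ρ ^ k := by
          have := mul_le_mul_of_nonneg_left ih hρ.le
          linarith
      _ = (K + K' / ρ * (k + 1) * ((k : ℝ) + 1) ^ n) * ρ ^ (k + 1) := by
          field_simp
          ring
      _ ≤ (K + K' / ρ * (k + 1) * ((k : ℝ) + 1 + 1) ^ n) * ρ ^ (k + 1) := by gcongr
      _ = _ := by push_cast; ring

/-- the polynomial with the roots in `s` -/
noncomputable def Pol (s : Multiset ℂ) : ℂ[X] := (s.map fun t => X - C t).prod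

theorem transfer {ρ : ℝ} (hρ : 0 < ρ) : ∀ n : ℕ, ∃ C : ℝ, 0 < C ∧ ∀ s : Multiset ℂ, Multiset.card s = n →
    (∀ γ ∈ s, ‖γ‖ ≤ ρ) → ∀ (u : ℕ → ℂ) (K : ℝ), 0 ≤ K → (∀ k, ‖aeval Sh (Pol s) u k‖ ≤ K * ρ ^ k) →
      (∀ k < n, ‖u k‖ ≤ K) → ∀ k : ℕ, ‖u k‖ ≤ C * K * ((k : ℝ) + 1) ^ n * ρ ^ k := by
  intro n
  induction n with
  | zero =>
    refine ⟨1, one_pos, fun s hs _ u K _ hu _ k => ?_⟩
    rw [Multiset.card_eq_zero] at hs
    subst hs
    have h1 := hu k
    unfold Pol at h1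
    rw [Multiset.map_zero, Multiset.prod_zero, map_one, Module.End.one_apply] at h1
    simpa using h1
  | succ n ih =>
    obtain ⟨C₀, hC₀, h⟩ := ih
    refine ⟨1 + C₀ * (1 + ρ) / ρ, by positivity, fun s hs hγ u K hK hu hini k => ?_⟩
    obtain ⟨γ, hγs⟩ : ∃ γ, γ ∈ s := Multiset.card_pos_iff_exists_mem.1 (by omega)
    obtain ⟨t, rfl⟩ := Multiset.exists_cons_of_mem hγs
    have ht : Multiset.card t = n := by
      rw [Multiset.card_cons] at hs
      omega
    have hγ1 : ‖γ‖ ≤ ρ := hγ γ (Multiset.mem_cons_self _ _)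
    set u' : ℕ → ℂ := fun k => u (k + 1) - γ * u k with hu'
    have e1 : aeval Sh (Pol (γ ::ₘ t)) u = aeval Sh (Pol t) u' := by
      unfold Pol
      rw [Multiset.map_cons, Multiset.prod_cons, mul_comm, map_mul, Module.End.mul_apply]
      congr 1
      funext k
      rw [map_sub, aeval_X, aeval_C, LinearMap.sub_apply, Module.algebraMap_end_apply]
      rfl
    have h1 := h t ht (fun δ hδ => hγ δ (Multiset.mem_cons_of_mem hδ)) u' (K * (1 + ρ)) (by positivity) (fun k => by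
      rw [← e1]
      refine (hu k).trans ?_
      have : 0 ≤ ρ ^ k := by positivity
      have h2 : K ≤ K * (1 + ρ) := by nlinarith
      exact mul_le_mul_of_nonneg_right h2 this) (fun k hk => by
      calc ‖u (k + 1) - γ * u k‖ ≤ ‖u (k + 1)‖ + ‖γ * u k‖ := norm_sub_le _ _
        _ ≤ K + ρ * K := by
            refine add_le_add (hini _ (by omega)) ?_
            rw [norm_mul]
            exact mul_le_mul hγ1 (hini _ (by omega)) (norm_nonneg _) hρ.le
        _ = K * (1 + ρ) := by ring)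
    have h2 := basic hρ (K := K) (K' := C₀ * (K * (1 + ρ))) (by positivity) hγ1 (hini 0 (by omega)) h1 k
    refine h2.trans (mul_le_mul_of_nonneg_right ?_ (by positivity))
    have h3 : (k : ℝ) * ((k : ℝ) + 1) ^ n ≤ ((k : ℝ) + 1) ^ (n + 1) := by
      rw [pow_succ, mul_comm]
      exact mul_le_mul_of_nonneg_left (by linarith) (by positivity)
    have h4 : (1 : ℝ) ≤ ((k : ℝ) + 1) ^ (n + 1) := one_le_pow₀ (by linarith [Nat.cast_nonneg (α := ℝ) k])
    have h5 : 0 ≤ C₀ * (K * (1 + ρ)) / ρ := by positivity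
    calc K + C₀ * (K * (1 + ρ)) / ρ * k * ((k : ℝ) + 1) ^ n
        = K + C₀ * (K * (1 + ρ)) / ρ * (k * ((k : ℝ) + 1) ^ n) := by ring
      _ ≤ K * ((k : ℝ) + 1) ^ (n + 1) + C₀ * (K * (1 + ρ)) / ρ * ((k : ℝ) + 1) ^ (n + 1) := by
          have h6 := mul_le_mul_of_nonneg_left h3 h5
          have h7 := mul_le_mul_of_nonneg_left h4 hK
          linarith
      _ = _ := by field_simp

/-- power sums -/
noncomputable def ps {d : ℕ} (α : Fin d → ℂ) (k : ℕ) : ℂ := ∑ j, α j ^ k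

/-- elementary symmetric functions -/
noncomputable def el {d : ℕ} (α : Fin d → ℂ) (k : ℕ) : ℂ := MvPolynomial.aeval α (MvPolynomial.esymm (Fin d) ℂ k)

/-- the family as a multiset -/
noncomputable def ms {d : ℕ} (α : Fin d → ℂ) : Multiset ℂ := (univ : Finset (Fin d)).val.map α

theorem ms_card {d : ℕ} (α : Fin d → ℂ) : Multiset.card (ms α) = d := by
  unfold ms
  rw [Multiset.card_map]
  simp

theorem el_eq {d : ℕ} (α : Fin d → ℂ) (k : ℕ) : el α k = (ms α).esymm k :=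
  MvPolynomial.aeval_esymm_eq_multiset_esymm (Fin d) ℂ k α

/-- the polynomial by its coefficients -/
theorem pol_sum {d : ℕ} (α : Fin d → ℂ) : Pol (ms α) = ∑ j ∈ range (d + 1), (-1) ^ j * (C (el α j) * X ^ (d - j)) := by
  unfold Pol
  rw [Multiset.prod_X_sub_X_eq_sum_esymm, ms_card]
  refine sum_congr rfl fun j _ => ?_
  rw [el_eq]

theorem pol_op {d : ℕ} (α : Fin d → ℂ) (u : ℕ → ℂ) (k : ℕ) :
    aeval Sh (Pol (ms α)) u k = ∑ j ∈ range (d + 1), (-1) ^ j * (el α j * u (k + (d - j))) := by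
  rw [pol_sum, map_sum, LinearMap.sum_apply, Finset.sum_apply]
  refine sum_congr rfl fun j _ => ?_
  rw [map_mul, map_mul, map_pow, map_pow, map_neg, map_one, aeval_X, aeval_C, Module.End.mul_apply, Module.End.mul_apply,
    Module.algebraMap_end_apply]
  have h1 : ∀ (j : ℕ) (v : ℕ → ℂ) (k : ℕ), ((-1 : Module.End ℂ (ℕ → ℂ)) ^ j) v k = (-1) ^ j * v k := by
    intro j v k
    induction j generalizing v with
    | zero => simp
    | succ j ih =>
      rw [pow_succ, Module.End.mul_apply, ih, LinearMap.neg_apply, Module.End.one_apply, Pi.neg_apply]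
      ring
  rw [h1, Pi.smul_apply, Sh_pow, smul_eq_mul]

theorem pol_eval {d : ℕ} (α : Fin d → ℂ) (j : Fin d) : (Pol (ms α)).eval (α j) = 0 := by
  unfold Pol ms
  rw [eval_multiset_prod]
  refine Multiset.prod_eq_zero ?_
  rw [Multiset.mem_map]
  refine ⟨X - C (α j), ?_, by simp⟩
  rw [Multiset.mem_map]
  refine ⟨α j, ?_, rfl⟩
  rw [Multiset.mem_map]
  exact ⟨j, mem_univ_val j, rfl⟩

/-- the recurrence of the power sums -/
theorem rec_ps {d : ℕ} (α : Fin d → ℂ) (k : ℕ) : ∑ j ∈ range (d + 1), (-1) ^ j * (el α j * ps α (k + (d - j))) = 0 := by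
  have h1 : ∀ i : Fin d, ∑ j ∈ range (d + 1), (-1) ^ j * (el α j * α i ^ (d - j)) = 0 := by
    intro i
    have h2 := pol_eval α i
    rw [pol_sum, eval_finset_sum] at h2
    rw [← h2]
    refine sum_congr rfl fun j _ => ?_
    simp
  have h3 : ∑ j ∈ range (d + 1), (-1) ^ j * (el α j * ps α (k + (d - j))) =
      ∑ i, α i ^ k * ∑ j ∈ range (d + 1), (-1) ^ j * (el α j * α i ^ (d - j)) := by
    simp only [mul_sum]
    rw [sum_comm]
    refine sum_congr rfl fun j _ => ?_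
    unfold ps
    rw [mul_sum, mul_sum]
    refine sum_congr rfl fun i _ => ?_
    rw [pow_add]
    ring
  rw [h3]
  simp only [h1, mul_zero, sum_const_zero]

theorem newton {d : ℕ} (α : Fin d → ℂ) (k : ℕ) : (k : ℂ) * el α k =
    (-1) ^ (k + 1) * ∑ a ∈ (antidiagonal k).filter (fun a => a.1 < k), (-1) ^ a.1 * el α a.1 * ps α a.2 := by
  have h := congrArg (MvPolynomial.aeval α) (MvPolynomial.mul_esymm_eq_sum (Fin d) ℂ k)
  rw [map_mul, map_mul, map_sum] at h
  have h1 : (MvPolynomial.aeval α) (k : MvPolynomial (Fin d) ℂ) = (k : ℂ) := map_natCast _ k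
  rw [h1] at h
  unfold el
  rw [h, map_pow, map_neg, map_one]
  congr 1
  refine sum_congr rfl fun a _ => ?_
  rw [map_mul, map_mul, map_pow, map_neg, map_one]
  congr 1
  unfold ps MvPolynomial.psum
  rw [map_sum]
  refine sum_congr rfl fun i _ => ?_
  rw [map_pow, MvPolynomial.aeval_X]

theorem ps_bd {d : ℕ} {ρ : ℝ} {α : Fin d → ℂ} (hα : ∀ j, ‖α j‖ ≤ ρ) (k : ℕ) : ‖ps α k‖ ≤ d * ρ ^ k := by
  unfold ps
  refine (norm_sum_le _ _).trans ?_
  have h1 : ∀ j ∈ (univ : Finset (Fin d)), ‖α j ^ k‖ ≤ ρ ^ k := by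
    intro j _
    rw [norm_pow]
    exact pow_le_pow_left₀ (norm_nonneg _) (hα j) k
  refine (sum_le_sum h1).trans (le_of_eq ?_)
  rw [sum_const, card_univ, Fintype.card_fin, nsmul_eq_mul]

/-- the elementary symmetric functions are close -/
theorem el_close (d : ℕ) {ρ : ℝ} (hρ : 0 < ρ) : ∀ n : ℕ, n ≤ d + 1 → ∃ C₀ : ℝ, 0 ≤ C₀ ∧ ∀ (α β : Fin d → ℂ), (∀ j, ‖α j‖ ≤ ρ) →
    (∀ j, ‖β j‖ ≤ ρ) → ∀ M : ℝ, 0 ≤ M → (∀ k : ℕ, 1 ≤ k → k ≤ d → ‖ps β k - ps α k‖ ≤ M) →
      ∀ m < n, ‖el α m‖ ≤ C₀ ∧ ‖el β m - el α m‖ ≤ C₀ * M := by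
  intro n
  induction n with
  | zero => exact fun _ => ⟨0, le_rfl, fun _ _ _ _ _ _ _ m hm => absurd hm (Nat.not_lt_zero m)⟩
  | succ n ih =>
    intro hn
    obtain ⟨C₀, hC₀, h⟩ := ih (by omega)
    rcases Nat.eq_zero_or_pos n with rfl | hn0
    · refine ⟨1, zero_le_one, fun α β _ _ M hM _ m hm => ?_⟩
      have hm0 : m = 0 := by omega
      subst hm0
      have e1 : ∀ α : Fin d → ℂ, el α 0 = 1 := by
        intro α
        unfold el
        rw [MvPolynomial.esymm_zero, map_one]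
      rw [e1, e1, sub_self, norm_zero, norm_one]
      exact ⟨le_rfl, by positivity⟩
    · set R := max 1 ρ ^ d with hR
      have hR1 : 1 ≤ R := one_le_pow₀ (le_max_left _ _)
      set C₁ := ((antidiagonal n).filter (fun a => a.1 < n)).card * (C₀ * (d * R) + C₀) with hC₁
      have hC₁0 : 0 ≤ C₁ := by positivity
      refine ⟨C₀ + C₁, by positivity, fun α β hα hβ M hM hM1 m hm => ?_⟩
      have hρk : ∀ k ≤ d, ρ ^ k ≤ R := by
        intro k hk
        calc ρ ^ k ≤ max 1 ρ ^ k := pow_le_pow_left₀ hρ.le (le_max_right _ _) k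
          _ ≤ max 1 ρ ^ d := pow_le_pow_right₀ (le_max_left _ _) hk
      have hps : ∀ (γ : Fin d → ℂ), (∀ j, ‖γ j‖ ≤ ρ) → ∀ k ≤ d, ‖ps γ k‖ ≤ d * R := by
        intro γ hγ k hk
        exact (ps_bd hγ k).trans (mul_le_mul_of_nonneg_left (hρk k hk) (Nat.cast_nonneg _))
      rcases Nat.lt_succ_iff_lt_or_eq.1 hm with hm | rfl
      · obtain ⟨h1, h2⟩ := h α β hα hβ M hM hM1 m hm
        exact ⟨by linarith, h2.trans (mul_le_mul_of_nonneg_right (by linarith) hM)⟩
      · have hmC : (1 : ℝ) ≤ m := by exact_mod_cast hn0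
        have hdiv : ∀ z : ℂ, ‖z‖ ≤ ‖(m : ℂ) * z‖ := by
          intro z
          rw [norm_mul, Complex.norm_natCast]
          exact le_mul_of_one_le_left (norm_nonneg _) hmC
        have hneg : ∀ (i : ℕ) (z : ℂ), ‖(-1 : ℂ) ^ i * z‖ = ‖z‖ := by
          intro i z
          rw [norm_mul, norm_pow, norm_neg, norm_one, one_pow, one_mul]
        constructor
        · refine (hdiv _).trans ?_
          rw [newton, hneg]
          refine (norm_sum_le _ _).trans ?_
          have h3 : ∀ a ∈ (antidiagonal m).filter (fun a => a.1 < m), ‖(-1 : ℂ) ^ a.1 * el α a.1 * ps α a.2‖ ≤ C₀ * (d * R) + C₀ := by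
            intro a ha
            rw [mem_filter, HasAntidiagonal.mem_antidiagonal] at ha
            rw [mul_assoc, hneg, norm_mul]
            have h4 := (h α β hα hβ M hM hM1 a.1 ha.2).1
            have h5 := hps α hα a.2 (by omega)
            have := mul_le_mul h4 h5 (norm_nonneg _) hC₀
            linarith
          refine (sum_le_sum h3).trans ?_
          rw [sum_const, nsmul_eq_mul]
          linarith
        · refine (hdiv _).trans ?_
          rw [mul_sub, newton, newton, ← mul_sub, hneg, ← sum_sub_distrib]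
          refine (norm_sum_le _ _).trans ?_
          have h3 : ∀ a ∈ (antidiagonal m).filter (fun a => a.1 < m),
              ‖(-1 : ℂ) ^ a.1 * el β a.1 * ps β a.2 - (-1 : ℂ) ^ a.1 * el α a.1 * ps α a.2‖ ≤ (C₀ * (d * R) + C₀) * M := by
            intro a ha
            rw [mem_filter, HasAntidiagonal.mem_antidiagonal] at ha
            have e1 : (-1 : ℂ) ^ a.1 * el β a.1 * ps β a.2 - (-1 : ℂ) ^ a.1 * el α a.1 * ps α a.2 =
                (-1 : ℂ) ^ a.1 * ((el β a.1 - el α a.1) * ps β a.2 + el α a.1 * (ps β a.2 - ps α a.2)) := by ring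
            rw [e1, hneg]
            obtain ⟨h4, h5⟩ := h α β hα hβ M hM hM1 a.1 ha.2
            have h6 := hps β hβ a.2 (by omega)
            have h7 := hM1 a.2 (by omega) (by omega)
            calc ‖(el β a.1 - el α a.1) * ps β a.2 + el α a.1 * (ps β a.2 - ps α a.2)‖
                ≤ ‖(el β a.1 - el α a.1) * ps β a.2‖ + ‖el α a.1 * (ps β a.2 - ps α a.2)‖ := norm_add_le _ _
              _ ≤ (C₀ * M) * (d * R) + C₀ * M := by
                  rw [norm_mul, norm_mul]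
                  exact add_le_add (mul_le_mul h5 h6 (norm_nonneg _) (by positivity)) (mul_le_mul h4 h7 (norm_nonneg _) hC₀)
              _ = _ := by ring
          refine (sum_le_sum h3).trans ?_
          rw [sum_const, nsmul_eq_mul]
          have h8 : 0 ≤ C₀ * M := by positivity
          rw [← mul_assoc, ← hC₁]
          linarith

/-- **S_Pow** -/
theorem pow_ : Pool.Agent.Q286.PG.S_Pow := by
  intro d ρ hρ
  obtain ⟨C₀, hC₀, h0⟩ := el_close d hρ (d + 1) le_rfl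
  obtain ⟨C₁, hC₁, h1⟩ := transfer hρ d
  set R := max 1 ρ ^ d with hR
  have hR1 : 1 ≤ R := one_le_pow₀ (le_max_left _ _)
  set K₁ := 1 + (d + 1) * (C₀ * (d * R)) with hK₁
  have hK₁1 : 1 ≤ K₁ := by
    have : 0 ≤ ((d : ℝ) + 1) * (C₀ * (d * R)) := by positivity
    linarith
  refine ⟨C₁ * K₁, by positivity, fun α β hα hβ M hM hM1 k => ?_⟩
  set δ : ℕ → ℂ := fun k => ps β k - ps α k with hδ
  have h2 := h0 α β hα hβ M hM hM1
  have hρk : ∀ k ≤ d, ρ ^ k ≤ R := by
    intro k hk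
    calc ρ ^ k ≤ max 1 ρ ^ k := pow_le_pow_left₀ hρ.le (le_max_right _ _) k
      _ ≤ max 1 ρ ^ d := pow_le_pow_right₀ (le_max_left _ _) hk
  have h3 : ∀ k, ‖aeval Sh (Pol (ms α)) δ k‖ ≤ K₁ * M * ρ ^ k := by
    intro k
    have e1 : aeval Sh (Pol (ms α)) δ k = ∑ j ∈ range (d + 1), (-1) ^ j * ((el α j - el β j) * ps β (k + (d - j))) := by
      rw [pol_op]
      have e2 := rec_ps α k
      have e3 := rec_ps β k
      have e4 : ∑ j ∈ range (d + 1), (-1) ^ j * (el α j * δ (k + (d - j))) =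
          ∑ j ∈ range (d + 1), (-1) ^ j * ((el α j - el β j) * ps β (k + (d - j))) -
            ∑ j ∈ range (d + 1), (-1) ^ j * (el α j * ps α (k + (d - j))) +
              ∑ j ∈ range (d + 1), (-1) ^ j * (el β j * ps β (k + (d - j))) := by
        rw [← sum_sub_distrib, ← sum_add_distrib]
        refine sum_congr rfl fun j _ => ?_
        rw [hδ]
        ring
      rw [e4, e2, e3, sub_zero, add_zero]
    rw [e1]
    refine (norm_sum_le _ _).trans ?_
    have h4 : ∀ j ∈ range (d + 1), ‖(-1 : ℂ) ^ j * ((el α j - el β j) * ps β (k + (d - j)))‖ ≤ C₀ * (d * R) * M * ρ ^ k := by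
      intro j hj
      rw [norm_mul, norm_pow, norm_neg, norm_one, one_pow, one_mul, norm_mul, norm_sub_rev]
      have h5 := (h2 j (mem_range.1 hj)).2
      have h6 : ‖ps β (k + (d - j))‖ ≤ d * (R * ρ ^ k) := by
        refine (ps_bd hβ _).trans (mul_le_mul_of_nonneg_left ?_ (Nat.cast_nonneg _))
        rw [pow_add, mul_comm]
        exact mul_le_mul_of_nonneg_right (hρk _ (Nat.sub_le d j)) (by positivity)
      calc ‖el β j - el α j‖ * ‖ps β (k + (d - j))‖ ≤ (C₀ * M) * (d * (R * ρ ^ k)) := mul_le_mul h5 h6 (norm_nonneg _) (by positivity)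
        _ = _ := by ring
    refine (sum_le_sum h4).trans ?_
    rw [sum_const, card_range, nsmul_eq_mul, hK₁]
    push_cast
    have h7 : 0 ≤ M * ρ ^ k := by positivity
    nlinarith
  have h4 : ∀ k < d, ‖δ k‖ ≤ K₁ * M := by
    intro k hk
    have h5 : ‖δ k‖ ≤ M := by
      rcases Nat.eq_zero_or_pos k with rfl | hk0
      · rw [hδ]
        simp only [ps, pow_zero, sub_self, norm_zero]
        exact hM
      · exact hM1 k hk0 hk.le
    nlinarith
  have hmem : ∀ γ ∈ ms α, ‖γ‖ ≤ ρ := by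
    intro γ hγ
    unfold ms at hγ
    rw [Multiset.mem_map] at hγ
    obtain ⟨j, -, rfl⟩ := hγ
    exact hα j
  have h5 := h1 (ms α) (ms_card α) hmem δ (K₁ * M) (by positivity) h3 h4 k
  refine h5.trans ?_
  have h6 : ((k : ℝ) + 1) ^ d ≤ ((k : ℝ) + 1) ^ (2 * d) := pow_le_pow_right₀ (by linarith [Nat.cast_nonneg (α := ℝ) k]) (by omega)
  calc C₁ * (K₁ * M) * ((k : ℝ) + 1) ^ d * ρ ^ k ≤ C₁ * (K₁ * M) * ((k : ℝ) + 1) ^ (2 * d) * ρ ^ k := by gcongr
    _ = _ := by ring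

end Pool.Agent.Q214.PG
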