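import Pool.Agent.Q214.PG.PosI

/-!
# Project PRG: rigidity of the coefficients and of the conductor
-/

set_option autoImplicit false
set_option maxHeartbeats 2000000

open MeasureTheory Filter Topology

namespace Pool.Agent.Q214.PG

open Pool.Agent Pool.Agent.Q286.PG

theorem eventually_Lm {m C : ℝ} {P : ℝ × ℕ → Prop} (h : ∀ᶠ p in Lm m C, P p) :
    ∃ A : ℝ, ∀ p : ℝ × ℕ, A ≤ p.1 → ⌈C * p.1 * Real.exp (2 * p.1 / m)⌉₊ ≤ p.2 → P p := by
  unfold Lm at h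
  rw [Filter.eventually_inf_principal] at h
  rw [Filter.eventually_comap] at h
  obtain ⟨A, hA⟩ := Filter.eventually_atTop.1 h
  exact ⟨A, fun p hp hp2 => hA p.1 hp p rfl hp2⟩

/-- the integral of the multiplier against the square of the transform -/
theorem int_Tm (hPar : S_ParC) {a μ : ℝ} {x : ℕ → ℂ} {f : ℝ → ℂ} (ha : 0 < a) (hf : Y23.Fa a f) (hx : Summable fun n => ‖x n‖) :
    ∫ v : ℝ, ‖Y23.TT f (v * Complex.I)‖ ^ 2 * Tm x μ v =
      2 * Real.pi * (∑' n : ℕ, x n * ∫ y : ℝ, f (y + Real.log n) * (starRingEnd ℂ) (f y)).re + 2 * Real.pi * μ * Y23.N2 f := by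
  have hi := Y23.int_TT_sq hf
  have hiC : Integrable fun v : ℝ => ((‖Y23.TT f (v * Complex.I)‖ ^ 2 : ℝ) : ℂ) := hi.ofReal
  have h1 : ∫ v : ℝ, ((‖Y23.TT f (v * Complex.I)‖ ^ 2 : ℝ) : ℂ) * SS x v =
      2 * Real.pi * ∑' n : ℕ, x n * ∫ y : ℝ, f (y + Real.log n) * (starRingEnd ℂ) (f y) := by
    rw [exch hx hiC, ← tsum_mul_left]
    refine tsum_congr fun n => ?_
    have h2 := hPar a (Real.log n) f ha hf
    have e1 : ∫ v : ℝ, ((‖Y23.TT f (v * Complex.I)‖ ^ 2 : ℝ) : ℂ) * en n v =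
        2 * Real.pi * ∫ y : ℝ, f (y + Real.log n) * (starRingEnd ℂ) (f y) := h2.symm
    rw [e1]
    ring
  have iS : Integrable fun v : ℝ => ((‖Y23.TT f (v * Complex.I)‖ ^ 2 : ℝ) : ℂ) * SS x v := by
    refine (hi.mul_const (∑' n, ‖x n‖)).mono' (hiC.aestronglyMeasurable.mul (SS_cont hx).aestronglyMeasurable) (Eventually.of_forall fun v => ?_)
    rw [norm_mul, Complex.norm_real, Real.norm_of_nonneg (sq_nonneg _)]
    exact mul_le_mul_of_nonneg_left (SS_norm hx v) (sq_nonneg _)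
  have iRe : Integrable fun v : ℝ => (((‖Y23.TT f (v * Complex.I)‖ ^ 2 : ℝ) : ℂ) * SS x v).re := iS.re
  have e2 : (fun v : ℝ => ‖Y23.TT f (v * Complex.I)‖ ^ 2 * Tm x μ v) =
      fun v : ℝ => ‖Y23.TT f (v * Complex.I)‖ ^ 2 * μ + (((‖Y23.TT f (v * Complex.I)‖ ^ 2 : ℝ) : ℂ) * SS x v).re := by
    funext v
    rw [Tm_eq, Complex.re_ofReal_mul]
    ring
  rw [e2, integral_add (hi.mul_const μ) iRe, integral_mul_const, Y23.plancherel hf]
  have h3 : ∫ v : ℝ, (((‖Y23.TT f (v * Complex.I)‖ ^ 2 : ℝ) : ℂ) * SS x v).re =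
      (∫ v : ℝ, ((‖Y23.TT f (v * Complex.I)‖ ^ 2 : ℝ) : ℂ) * SS x v).re := integral_re iS
  rw [h3, h1]
  have e3 : (2 * (Real.pi : ℂ) * ∑' n : ℕ, x n * ∫ y : ℝ, f (y + Real.log n) * (starRingEnd ℂ) (f y)) =
      ((2 * Real.pi : ℝ) : ℂ) * ∑' n : ℕ, x n * ∫ y : ℝ, f (y + Real.log n) * (starRingEnd ℂ) (f y) := by
    push_cast
    ring
  rw [e3, Complex.re_ofReal_mul]
  ring

/-- the compact set of the normalised coefficients -/
def QS (w : ℕ → ℝ) (n0 : ℕ) : Set ((ℕ → ℂ) × ℝ × ℝ) :=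
  {q | q.1 0 = 0 ∧ q.1 1 = 0 ∧ (∀ n, ‖q.1 n‖ ≤ q.2.1 * w n) ∧ (0 ≤ q.2.1 ∧ q.2.1 ≤ 1) ∧ (0 ≤ q.2.2 ∧ q.2.2 ≤ 1) ∧
    (∃ n ∈ Set.Iio n0, q.2.1 ≤ ‖q.1 n‖) ∧ max q.2.1 q.2.2 = 1}

theorem QS_compact (w : ℕ → ℝ) (n0 : ℕ) : IsCompact (QS w n0) := by
  have hK : IsCompact ((Set.univ.pi fun n => Metric.closedBall (0 : ℂ) |w n|) ×ˢ (Set.Icc (0 : ℝ) 1 ×ˢ Set.Icc (0 : ℝ) 1)) :=
    (isCompact_univ_pi fun n => isCompact_closedBall _ _).prod (isCompact_Icc.prod isCompact_Icc)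
  refine hK.of_isClosed_subset ?_ ?_
  · have c1 : ∀ n : ℕ, Continuous fun q : (ℕ → ℂ) × ℝ × ℝ => q.1 n := fun n => (continuous_apply n).comp continuous_fst
    have c2 : Continuous fun q : (ℕ → ℂ) × ℝ × ℝ => q.2.1 := continuous_fst.comp continuous_snd
    have c3 : Continuous fun q : (ℕ → ℂ) × ℝ × ℝ => q.2.2 := continuous_snd.comp continuous_snd
    have e : QS w n0 = {q | q.1 0 = 0} ∩ ({q | q.1 1 = 0} ∩ ({q | ∀ n, ‖q.1 n‖ ≤ q.2.1 * w n} ∩
        ({q | 0 ≤ q.2.1 ∧ q.2.1 ≤ 1} ∩ ({q | 0 ≤ q.2.2 ∧ q.2.2 ≤ 1} ∩ ({q | ∃ n ∈ Set.Iio n0, q.2.1 ≤ ‖q.1 n‖} ∩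
          {q | max q.2.1 q.2.2 = 1}))))) := rfl
    rw [e]
    refine (isClosed_eq (c1 0) continuous_const).inter ((isClosed_eq (c1 1) continuous_const).inter (IsClosed.inter ?_
      (IsClosed.inter ?_ (IsClosed.inter ?_ (IsClosed.inter ?_ (isClosed_eq (c2.max c3) continuous_const))))))
    · rw [Set.setOf_forall]
      exact isClosed_iInter fun n => isClosed_le (c1 n).norm (c2.mul continuous_const)
    · exact (isClosed_le continuous_const c2).inter (isClosed_le c2 continuous_const)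
    · exact (isClosed_le continuous_const c3).inter (isClosed_le c3 continuous_const)
    · have e2 : {q : (ℕ → ℂ) × ℝ × ℝ | ∃ n ∈ Set.Iio n0, q.2.1 ≤ ‖q.1 n‖} = ⋃ n ∈ Set.Iio n0, {q | q.2.1 ≤ ‖q.1 n‖} := by
        ext q
        simp
      rw [e2]
      exact (Set.finite_Iio n0).isClosed_biUnion fun n _ => isClosed_le c2 (c1 n).norm
  · rintro ⟨y, M, κ⟩ ⟨-, -, h3, h4, h5, -, -⟩
    refine ⟨fun n _ => ?_, h4, h5⟩
    rw [mem_closedBall_zero_iff]
    refine (h3 n).trans ?_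
    have h6 : M * w n ≤ M * |w n| := mul_le_mul_of_nonneg_left (le_abs_self _) h4.1
    have h7 : M * |w n| ≤ 1 * |w n| := mul_le_mul_of_nonneg_right h4.2 (abs_nonneg _)
    rw [one_mul] at h7
    exact h6.trans h7

/-- **S_RigI** -/
theorem rigI (hKey : S_KeyG) (hPos : S_PosI) (hPar : S_ParC) : S_RigI := by
  intro L c hc
  have hpi := Real.pi_pos
  have hm : (0 : ℝ) < L.m := by exact_mod_cast L.raw.hm
  set c' : ℝ := (c + 2 * Y23.G.cc (L := L)) / 2 with hc'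
  have hcc : c < c' := by rw [hc']; linarith
  have hc2 : c' < 2 * Y23.G.cc (L := L) := by rw [hc']; linarith
  obtain ⟨C, hC, hkey⟩ := hKey c' hc2
  refine ⟨C, hC, fun w n0 hw => ?_⟩
  have hwa : Summable fun n => |w n| := hw.abs
  haveI : CompactSpace (QS w n0) := isCompact_iff_compactSpace.1 (QS_compact w n0)
  have hb : ∀ q : QS w n0, ∀ n, ‖q.1.1 n‖ ≤ |w n| := by
    rintro ⟨⟨y, M, κ⟩, -, -, h3, h4, h5, -, -⟩ n
    refine (h3 n).trans ?_
    have h6 : M * w n ≤ M * |w n| := mul_le_mul_of_nonneg_left (le_abs_self _) h4.1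
    have h7 : M * |w n| ≤ 1 * |w n| := mul_le_mul_of_nonneg_right h4.2 (abs_nonneg _)
    rw [one_mul] at h7
    exact h6.trans h7
  have hsum : ∀ q : QS w n0, Summable fun n => ‖q.1.1 n‖ := fun q =>
    Summable.of_nonneg_of_le (fun n => norm_nonneg _) (hb q) hwa
  obtain ⟨c0, hc0, hev⟩ := hkey (QS w n0) (fun q v => Tm q.1.1 (2⁻¹ * q.1.2.2) v) (by
      have e : (fun p : QS w n0 × ℝ => Tm p.1.1.1 (2⁻¹ * p.1.1.2.2) p.2) =
          fun p : QS w n0 × ℝ => 2⁻¹ * p.1.1.2.2 + (∑' n : ℕ, p.1.1.1 n * en n p.2).re := rfl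
      rw [e]
      refine Continuous.add (continuous_const.mul (continuous_snd.comp (continuous_snd.comp (continuous_subtype_val.comp continuous_fst)))) ?_
      refine Complex.continuous_re.comp (continuous_tsum (fun n => ?_) hwa fun n p => ?_)
      · exact ((continuous_apply n).comp (continuous_fst.comp (continuous_subtype_val.comp continuous_fst))).mul ((en_cont n).comp continuous_snd)
      · rw [norm_mul, en_norm, mul_one]
        exact hb p.1 n) (by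
      refine ⟨1 + ∑' n, |w n|, fun q v => ?_⟩
      rw [Tm_eq]
      have h1 : |2⁻¹ * q.1.2.2| ≤ 1 := by
        have h2 : 0 ≤ q.1.2.2 ∧ q.1.2.2 ≤ 1 := q.2.2.2.2.2.1
        rw [abs_of_nonneg (by linarith [h2.1])]
        linarith [h2.1, h2.2]
      have h2 : |(SS q.1.1 v).re| ≤ ∑' n, |w n| :=
        (Complex.abs_re_le_norm _).trans ((SS_norm (hsum q) v).trans ((hsum q).tsum_le_tsum (hb q) hwa))
      exact (abs_add_le _ _).trans (add_le_add h1 h2)) (by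
      rintro ⟨⟨y, M, κ⟩, h0, h1, h3, h4, h5, h6, h7⟩
      refine hPos y (2⁻¹ * κ) (by linarith [h5.1]) h0 h1 (hsum ⟨⟨y, M, κ⟩, h0, h1, h3, h4, h5, h6, h7⟩) ?_
      have h7' : max M κ = 1 := h7
      rcases max_choice M κ with h8 | h8
      · right
        rw [h8] at h7'
        obtain ⟨n, -, hn⟩ := h6
        refine ⟨n, fun h9 => ?_⟩
        have hn' : M ≤ ‖y n‖ := hn
        rw [h9, norm_zero, h7'] at hn'
        linarith
      · left
        rw [h8] at h7'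
        rw [h7']
        norm_num)
  obtain ⟨A1, hA1⟩ := eventually_Lm hev
  -- the size of `a`
  obtain ⟨A2, hA2⟩ : ∃ A2 : ℝ, ∀ a, A2 ≤ a → Real.log (Real.pi / c0) ≤ (c' - c) * Real.exp (2 * a / L.m) := by
    have h1 : Tendsto (fun a : ℝ => (c' - c) * Real.exp (2 * a / L.m)) atTop atTop := by
      refine Tendsto.const_mul_atTop (by linarith) ?_
      exact Real.tendsto_exp_atTop.comp ((tendsto_id.const_mul_atTop (by norm_num)).atTop_div_const hm)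
    exact Filter.eventually_atTop.1 (h1.eventually_ge_atTop _)
  refine ⟨Real.pi / c0, max 1 (max A1 A2), by positivity, ?_⟩
  intro a ν ha hν x M κ hM hx0 hx1 hxw hxn hpos
  have ha1 : 1 ≤ a := (le_max_left _ _).trans ha
  have haA1 : A1 ≤ a := ((le_max_left _ _).trans (le_max_right _ _)).trans ha
  have haA2 : A2 ≤ a := ((le_max_right _ _).trans (le_max_right _ _)).trans ha
  have ha0 : 0 < a := by linarith
  set E := Real.exp (2 * a / L.m) with hE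
  have hxs : Summable fun n => ‖x n‖ := by
    refine Summable.of_nonneg_of_le (fun n => norm_nonneg _) (fun n => (hxw n).trans ?_) (hwa.mul_left M)
    exact mul_le_mul_of_nonneg_left (le_abs_self _) hM
  have hexp : Real.pi / c0 * Real.exp (-(c' * E)) ≤ Real.exp (-(c * E)) := by
    have h7 : Real.pi / c0 = Real.exp (Real.log (Real.pi / c0)) := (Real.exp_log (by positivity)).symm
    rw [h7, ← Real.exp_add]
    refine Real.exp_le_exp.2 ?_
    have h8 := hA2 a haA2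
    linarith
  -- the test with a scaled triple
  have key : ∀ (s κ' : ℝ), 0 < s → 0 ≤ κ' → M ≤ s → κ' ≤ s → max M κ' = s →
      s ≤ Real.pi / c0 * (Real.exp (-(c' * E)) + max 0 (κ' - κ)) := by
    intro s κ' hs hκ0 hMs hκs hmax
    have hmem : ((fun n => ((s⁻¹ : ℝ) : ℂ) * x n, s⁻¹ * M, s⁻¹ * κ') : (ℕ → ℂ) × ℝ × ℝ) ∈ QS w n0 := by
      have hsi : 0 < s⁻¹ := inv_pos.2 hs
      have hn : ∀ n, ‖((s⁻¹ : ℝ) : ℂ) * x n‖ = s⁻¹ * ‖x n‖ := by
        intro n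
        rw [norm_mul, Complex.norm_real, Real.norm_of_nonneg hsi.le]
      refine ⟨?_, ?_, fun n => ?_, ⟨by positivity, ?_⟩, ⟨by positivity, ?_⟩, ?_, ?_⟩
      · show ((s⁻¹ : ℝ) : ℂ) * x 0 = 0
        rw [hx0, mul_zero]
      · show ((s⁻¹ : ℝ) : ℂ) * x 1 = 0
        rw [hx1, mul_zero]
      · show ‖((s⁻¹ : ℝ) : ℂ) * x n‖ ≤ s⁻¹ * M * w n
        rw [hn, mul_assoc]
        exact mul_le_mul_of_nonneg_left (hxw n) hsi.le
      · show s⁻¹ * M ≤ 1
        rw [inv_mul_le_iff₀ hs, mul_one]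
        exact hMs
      · show s⁻¹ * κ' ≤ 1
        rw [inv_mul_le_iff₀ hs, mul_one]
        exact hκs
      · obtain ⟨n, hn0, hnM⟩ := hxn
        refine ⟨n, hn0, ?_⟩
        show s⁻¹ * M ≤ ‖((s⁻¹ : ℝ) : ℂ) * x n‖
        rw [hn]
        exact mul_le_mul_of_nonneg_left hnM hsi.le
      · show max (s⁻¹ * M) (s⁻¹ * κ') = 1
        rw [← mul_max_of_nonneg _ _ hsi.le, hmax, inv_mul_cancel₀ hs.ne']
    obtain ⟨f, hf1, hfN, hf2, hf3⟩ := hA1 (a, ⌈C * a * Real.exp (2 * a / L.m)⌉₊) haA1 le_rfl ⟨_, hmem⟩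
    have hfν : Y23.G.F.Hn a ν f := by
      obtain ⟨g1, g2, g3⟩ := hf1
      exact ⟨g1, g2, fun k hk => g3 k (lt_of_le_of_lt hν hk)⟩
    have hfa : Y23.Fa a f := hf1.1
    have hp := hpos f hfν
    have hint := int_Tm hPar (μ := 2⁻¹ * κ') ha0 hfa hxs
    have hscale : ∀ v, Tm (fun n => ((s⁻¹ : ℝ) : ℂ) * x n) (2⁻¹ * (s⁻¹ * κ')) v = s⁻¹ * Tm x (2⁻¹ * κ') v := by
      intro v
      rw [Tm_eq, Tm_eq]
      have e1 : SS (fun n => ((s⁻¹ : ℝ) : ℂ) * x n) v = ((s⁻¹ : ℝ) : ℂ) * SS x v := by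
        unfold SS
        rw [← tsum_mul_left]
        exact tsum_congr fun n => by ring
      rw [e1, Complex.re_ofReal_mul]
      ring
    have hf3' : c0 ≤ ∫ v : ℝ, ‖Y23.TT f (v * Complex.I)‖ ^ 2 * Tm (fun n => ((s⁻¹ : ℝ) : ℂ) * x n) (2⁻¹ * (s⁻¹ * κ')) v := hf3
    have e2 : ∫ v : ℝ, ‖Y23.TT f (v * Complex.I)‖ ^ 2 * Tm (fun n => ((s⁻¹ : ℝ) : ℂ) * x n) (2⁻¹ * (s⁻¹ * κ')) v =
        s⁻¹ * ∫ v : ℝ, ‖Y23.TT f (v * Complex.I)‖ ^ 2 * Tm x (2⁻¹ * κ') v := by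
      rw [← integral_const_mul]
      refine integral_congr_ae (Eventually.of_forall fun v => ?_)
      show ‖Y23.TT f (v * Complex.I)‖ ^ 2 * Tm (fun n => ((s⁻¹ : ℝ) : ℂ) * x n) (2⁻¹ * (s⁻¹ * κ')) v = _
      rw [hscale]
      ring
    rw [e2, hint] at hf3'
    have hN0 : 0 ≤ Y23.N2 f := Y23.N2_nonneg f
    have h5 : 2 * (∑' n : ℕ, x n * ∫ y : ℝ, f (y + Real.log n) * (starRingEnd ℂ) (f y)).re + κ' * Y23.N2 f ≤
        Real.exp (-(c' * E)) + max 0 (κ' - κ) := by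
      have h6 := hp.trans ((le_abs_self _).trans hf2)
      have h7 : (κ' - κ) * Y23.N2 f ≤ max 0 (κ' - κ) := by
        calc (κ' - κ) * Y23.N2 f ≤ max 0 (κ' - κ) * Y23.N2 f := mul_le_mul_of_nonneg_right (le_max_right _ _) hN0
          _ ≤ max 0 (κ' - κ) * 1 := mul_le_mul_of_nonneg_left hfN (le_max_left _ _)
          _ = _ := mul_one _
      have h6' : 2 * (∑' n : ℕ, x n * ∫ y : ℝ, f (y + Real.log n) * (starRingEnd ℂ) (f y)).re + κ * Y23.N2 f ≤ Real.exp (-(c' * E)) := h6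
      linarith
    have h8 : c0 ≤ s⁻¹ * (Real.pi * (Real.exp (-(c' * E)) + max 0 (κ' - κ))) := by
      refine hf3'.trans (mul_le_mul_of_nonneg_left ?_ (inv_pos.2 hs).le)
      have h9 := mul_le_mul_of_nonneg_left h5 hpi.le
      linarith
    rw [le_inv_mul_iff₀ hs] at h8
    rw [div_mul_eq_mul_div, le_div_iff₀ hc0]
    exact h8
  have hEpos : 0 < Real.exp (-(c * E)) := Real.exp_pos _
  rcases le_or_gt 0 κ with hκ | hκ
  · -- `κ ≥ 0`
    rcases (le_max_left M κ |> fun h => (hM.trans h)).eq_or_lt with h0 | h0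
    · have hM0 : M ≤ 0 := by rw [h0]; exact le_max_left _ _
      have hκ0 : κ ≤ 0 := by rw [h0]; exact le_max_right _ _
      refine ⟨hκ0.trans hEpos.le, hM0.trans ?_⟩
      have : 0 ≤ Real.pi / c0 * max 0 (-κ) := mul_nonneg (by positivity) (le_max_left _ _)
      linarith
    · have h1 := key (max M κ) κ h0 hκ (le_max_left _ _) (le_max_right _ _) rfl
      rw [sub_self, max_self, add_zero] at h1
      have h2 := h1.trans hexp
      refine ⟨(le_max_right _ _).trans h2, ((le_max_left _ _).trans h2).trans ?_⟩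
      have : 0 ≤ Real.pi / c0 * max 0 (-κ) := mul_nonneg (by positivity) (le_max_left _ _)
      linarith
  · refine ⟨hκ.le.trans hEpos.le, ?_⟩
    rcases hM.eq_or_lt with h0 | h0
    · rw [← h0]
      have : 0 ≤ Real.pi / c0 * max 0 (-κ) := mul_nonneg (by positivity) (le_max_left _ _)
      linarith
    · have h1 := key M 0 h0 le_rfl le_rfl h0.le (max_eq_left h0.le)
      rw [zero_sub] at h1
      rw [mul_add] at h1
      linarith

end Pool.Agent.Q214.PG
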